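import Mathlib

/-!
# Determinants of matrices with restricted row patterns

Every row whose list of nonzero entries is one of the six patterns is a sum of two rows with entries
in `{0, 1, -1}` having at most one entry `1` and at most one entry `-1`: `(2, -1) = (1, -1) + (1, 0)`,
`(-1, 1, 1) = (-1, 1, 0) + (0, 0, 1)` and so on.  Expanding the determinant by multilinearity in the
rows gives `2 ^ (n - 1)` determinants of totally unimodular matrices, each at most `1` in absolute
value.
-/

set_option autoImplicit false

namespace Pool.Agent.Results.MP_a06539_co.DeterminantBound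

/-- The list of the nonzero entries of the row `r`, read from left to right, is `x` (a list of
nonzero numbers): there are positions `p 0 < p 1 < ⋯` carrying the entries of `x`, and all other
entries of `r` are zero. -/
def HasPattern {n : ℕ} (r : Fin n → ℝ) (x : List ℝ) : Prop :=
  ∃ p : Fin x.length → Fin n, StrictMono p ∧ (∀ t, r (p t) = x.get t) ∧ ∀ j, j ∉ Set.range p → r j = 0

/-- The six row patterns. -/
def patterns : List (List ℝ) := [[1], [-1, 2], [2, -1], [-1, 1, 1], [1, -1, 1], [1, 1, -1]]

/-- A real matrix with `m = n - 1` rows and `m + 1 = n` columns is admissible. -/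
def Admissible {m : ℕ} (B : Matrix (Fin m) (Fin (m + 1)) ℝ) : Prop :=
  ∀ i, ∃ x ∈ patterns, HasPattern (B i) x

/-- at most one entry `1`, at most one entry `-1`, all other entries zero -/
def Net {n : ℕ} (r : Fin n → ℝ) : Prop :=
  (∀ i, r i = 0 ∨ r i = 1 ∨ r i = -1) ∧ (∀ i j, r i = 1 → r j = 1 → i = j) ∧
    ∀ i j, r i = -1 → r j = -1 → i = j

theorem Net.comp {n k : ℕ} {r : Fin n → ℝ} (h : Net r) (f : Fin k → Fin n)
    (hf : Function.Injective f) : Net (fun i => r (f i)) :=
  ⟨fun i => h.1 (f i), fun i j h1 h2 => hf (h.2.1 _ _ h1 h2), fun i j h1 h2 => hf (h.2.2 _ _ h1 h2)⟩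

theorem net_det : ∀ (m : ℕ) (A : Matrix (Fin m) (Fin m) ℝ), (∀ i, Net (A i)) → |A.det| ≤ 1 := by
  intro m
  induction m with
  | zero =>
    intro A _
    simp
  | succ m ih =>
    intro A hA
    by_cases hP : ∀ i, (∃ k, A i k = 1) ∧ (∃ l, A i l = -1)
    · have h0 : A.det = 0 := by
        rw [← Matrix.exists_mulVec_eq_zero_iff]
        refine ⟨fun _ => 1, ?_, ?_⟩
        · intro h
          have := congrFun h 0
          simp at this
        · ext i
          obtain ⟨⟨k, hk⟩, ⟨l, hl⟩⟩ := hP i
          have hkl : k ≠ l := by
            rintro rfl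
            rw [hk] at hl
            norm_num at hl
          have h1 : ∀ j, A i j = (if j = k then 1 else 0) + (if j = l then -1 else 0) := by
            intro j
            by_cases hjk : j = k
            · subst hjk
              rw [if_pos rfl, if_neg hkl, hk, add_zero]
            · by_cases hjl : j = l
              · subst hjl
                rw [if_neg hjk, if_pos rfl, hl, zero_add]
              · rw [if_neg hjk, if_neg hjl, add_zero]
                rcases (hA i).1 j with h | h | h
                · exact h
                · exact absurd ((hA i).2.1 j k h hk) hjk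
                · exact absurd ((hA i).2.2 j l h hl) hjl
          simp only [Matrix.mulVec, dotProduct, mul_one, Pi.zero_apply]
          rw [Finset.sum_congr rfl fun j _ => h1 j, Finset.sum_add_distrib, Finset.sum_ite_eq',
            Finset.sum_ite_eq']
          simp
      rw [h0]
      simp
    · push Not at hP
      obtain ⟨i, hi⟩ := hP
      by_cases hz : ∀ j, A i j = 0
      · rw [Matrix.det_eq_zero_of_row_eq_zero i hz]
        simp
      · push Not at hz
        obtain ⟨k, hk⟩ := hz
        have huniq : ∀ j, j ≠ k → A i j = 0 := by
          intro j hj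
          by_cases h1 : ∃ k, A i k = 1
          · have h2 := hi h1
            rcases (hA i).1 k with h | h | h
            · exact absurd h hk
            · rcases (hA i).1 j with h' | h' | h'
              · exact h'
              · exact absurd ((hA i).2.1 j k h' h) hj
              · exact absurd h' (h2 j)
            · exact absurd h (h2 k)
          · push Not at h1
            rcases (hA i).1 k with h | h | h
            · exact absurd h hk
            · exact absurd h (h1 k)
            · rcases (hA i).1 j with h' | h' | h'
              · exact h'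
              · exact absurd h' (h1 j)
              · exact absurd ((hA i).2.2 j k h' h) hj
        have hdet : A.det = (-1) ^ (i + k : ℕ) * A i k *
            (A.submatrix i.succAbove k.succAbove).det := by
          rw [Matrix.det_succ_row A i, Finset.sum_eq_single k]
          · intro j _ hj
            rw [huniq j hj]
            ring
          · intro h
            exact absurd (Finset.mem_univ k) h
        have hminor := ih (A.submatrix i.succAbove k.succAbove) (fun a =>
          (hA (i.succAbove a)).comp k.succAbove Fin.succAbove_right_injective)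
        have habs : |A i k| ≤ 1 := by
          rcases (hA i).1 k with h | h | h <;> rw [h] <;> simp
        rw [hdet, abs_mul, abs_mul, abs_pow, abs_neg, abs_one, one_pow, one_mul]
        calc |A i k| * |(A.submatrix i.succAbove k.succAbove).det| ≤ 1 * 1 :=
              mul_le_mul habs hminor (abs_nonneg _) zero_le_one
          _ = 1 := one_mul 1

theorem net_extend {s n : ℕ} (p : Fin s → Fin n) (hp : Function.Injective p) (a : Fin s → ℝ)
    (ha : Net a) : Net (Function.extend p a (fun _ => (0 : ℝ))) := by
  classical
  have h0 : ∀ i, i ∉ Set.range p → Function.extend p a (fun _ => (0 : ℝ)) i = 0 := fun i hi =>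
    Function.extend_apply' a _ i hi
  refine ⟨?_, ?_, ?_⟩
  · intro i
    by_cases hi : i ∈ Set.range p
    · obtain ⟨t, rfl⟩ := hi
      rw [hp.extend_apply]
      exact ha.1 t
    · exact Or.inl (h0 i hi)
  · intro i j hi hj
    have hi' : i ∈ Set.range p := by
      by_contra h
      rw [h0 i h] at hi
      norm_num at hi
    have hj' : j ∈ Set.range p := by
      by_contra h
      rw [h0 j h] at hj
      norm_num at hj
    obtain ⟨t, rfl⟩ := hi'
    obtain ⟨u, rfl⟩ := hj'
    rw [hp.extend_apply] at hi hj
    rw [ha.2.1 t u hi hj]
  · intro i j hi hj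
    have hi' : i ∈ Set.range p := by
      by_contra h
      rw [h0 i h] at hi
      norm_num at hi
    have hj' : j ∈ Set.range p := by
      by_contra h
      rw [h0 j h] at hj
      norm_num at hj
    obtain ⟨t, rfl⟩ := hi'
    obtain ⟨u, rfl⟩ := hj'
    rw [hp.extend_apply] at hi hj
    rw [ha.2.2 t u hi hj]

/-- each pattern is a sum of two network rows -/
theorem pattern_split (x : List ℝ) (hx : x ∈ patterns) :
    ∃ a b : Fin x.length → ℝ, Net a ∧ Net b ∧ ∀ t, x.get t = a t + b t := by
  unfold patterns at hx
  simp only [List.mem_cons, List.not_mem_nil, or_false] at hx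
  rcases hx with rfl | rfl | rfl | rfl | rfl | rfl
  · refine ⟨![1], ![0], ?_, ?_, ?_⟩
    · refine ⟨fun i => ?_, fun i j => ?_, fun i j => ?_⟩ <;> fin_cases i <;> try fin_cases j
      all_goals norm_num
    · refine ⟨fun i => ?_, fun i j => ?_, fun i j => ?_⟩ <;> fin_cases i <;> try fin_cases j
      all_goals norm_num
    · intro t
      fin_cases t
      all_goals norm_num
  · refine ⟨![-1, 1], ![0, 1], ?_, ?_, ?_⟩
    · refine ⟨fun i => ?_, fun i j => ?_, fun i j => ?_⟩ <;> fin_cases i <;> try fin_cases j
      all_goals norm_num
    · refine ⟨fun i => ?_, fun i j => ?_, fun i j => ?_⟩ <;> fin_cases i <;> try fin_cases j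
      all_goals norm_num
    · intro t
      fin_cases t
      all_goals norm_num
  · refine ⟨![1, 0], ![1, -1], ?_, ?_, ?_⟩
    · refine ⟨fun i => ?_, fun i j => ?_, fun i j => ?_⟩ <;> fin_cases i <;> try fin_cases j
      all_goals norm_num
    · refine ⟨fun i => ?_, fun i j => ?_, fun i j => ?_⟩ <;> fin_cases i <;> try fin_cases j
      all_goals norm_num
    · intro t
      fin_cases t
      all_goals norm_num
  · refine ⟨![-1, 1, 0], ![0, 0, 1], ?_, ?_, ?_⟩
    · refine ⟨fun i => ?_, fun i j => ?_, fun i j => ?_⟩ <;> fin_cases i <;> try fin_cases j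
      all_goals norm_num
    · refine ⟨fun i => ?_, fun i j => ?_, fun i j => ?_⟩ <;> fin_cases i <;> try fin_cases j
      all_goals norm_num
    · intro t
      fin_cases t
      all_goals norm_num
  · refine ⟨![1, -1, 0], ![0, 0, 1], ?_, ?_, ?_⟩
    · refine ⟨fun i => ?_, fun i j => ?_, fun i j => ?_⟩ <;> fin_cases i <;> try fin_cases j
      all_goals norm_num
    · refine ⟨fun i => ?_, fun i j => ?_, fun i j => ?_⟩ <;> fin_cases i <;> try fin_cases j
      all_goals norm_num
    · intro t
      fin_cases t
      all_goals norm_num
  · refine ⟨![1, 0, 0], ![0, 1, -1], ?_, ?_, ?_⟩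
    · refine ⟨fun i => ?_, fun i j => ?_, fun i j => ?_⟩ <;> fin_cases i <;> try fin_cases j
      all_goals norm_num
    · refine ⟨fun i => ?_, fun i j => ?_, fun i j => ?_⟩ <;> fin_cases i <;> try fin_cases j
      all_goals norm_num
    · intro t
      fin_cases t
      all_goals norm_num

theorem row_split {n : ℕ} (r : Fin n → ℝ) (h : ∃ x ∈ patterns, HasPattern r x) :
    ∃ a b : Fin n → ℝ, Net a ∧ Net b ∧ r = a + b := by
  obtain ⟨x, hx, p, hp, hpx, h0⟩ := h
  obtain ⟨a, b, ha, hb, hab⟩ := pattern_split x hx
  refine ⟨Function.extend p a (fun _ => (0 : ℝ)), Function.extend p b (fun _ => (0 : ℝ)), net_extend p hp.injective a ha,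
    net_extend p hp.injective b hb, ?_⟩
  ext j
  rw [Pi.add_apply]
  by_cases hj : j ∈ Set.range p
  · obtain ⟨t, rfl⟩ := hj
    rw [hp.injective.extend_apply, hp.injective.extend_apply, hpx, hab]
  · rw [h0 j hj, Function.extend_apply' _ _ _ hj, Function.extend_apply' _ _ _ hj]
    simp

/-- **Affirmative answer.**  For every admissible matrix with `m` rows and `n = m + 1` columns and
every column index `j`, the determinant of the matrix without column `j` is at most
`2 ^ (n - 1) = 2 ^ m` in absolute value. -/
theorem result (m : ℕ) (B : Matrix (Fin m) (Fin (m + 1)) ℝ) (hB : Admissible B)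
    (j : Fin (m + 1)) : |(B.submatrix id j.succAbove).det| ≤ 2 ^ m := by
  classical
  choose a b ha hb hab using fun i => row_split (B i) (hB i)
  have h1 : B.submatrix id j.succAbove =
      (fun i => fun k => a i (j.succAbove k)) + (fun i => fun k => b i (j.succAbove k)) := by
    ext i k
    show B i (j.succAbove k) = a i (j.succAbove k) + b i (j.succAbove k)
    rw [hab i]
    rfl
  have h2 : (B.submatrix id j.succAbove).det = ∑ s : Finset (Fin m),
      Matrix.det (s.piecewise (fun i => fun k => a i (j.succAbove k))
        (fun i => fun k => b i (j.succAbove k)) : Matrix (Fin m) (Fin m) ℝ) := by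
    rw [h1]
    exact (Matrix.detRowAlternating (R := ℝ) (n := Fin m)).toMultilinearMap.map_add_univ _ _
  rw [h2]
  refine (Finset.abs_sum_le_sum_abs _ _).trans ?_
  calc ∑ s : Finset (Fin m), |Matrix.det (s.piecewise (fun i => fun k => a i (j.succAbove k))
        (fun i => fun k => b i (j.succAbove k)) : Matrix (Fin m) (Fin m) ℝ)|
      ≤ ∑ _s : Finset (Fin m), (1 : ℝ) := by
        refine Finset.sum_le_sum fun s _ => net_det m _ fun i => ?_
        by_cases hi : i ∈ s
        · rw [Finset.piecewise_eq_of_mem _ _ _ hi]
          exact (ha i).comp _ Fin.succAbove_right_injective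
        · rw [Finset.piecewise_eq_of_notMem _ _ _ hi]
          exact (hb i).comp _ Fin.succAbove_right_injective
    _ = 2 ^ m := by simp

end Pool.Agent.Results.MP_a06539_co.DeterminantBound
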